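import Pool.Agent.W998.KG.Stm

set_option autoImplicit false

namespace Pool.Agent.W460.KG.ODD

open Pool.Agent.Results.MP_633d19_co.SmallDegree
open Pool.Agent.Results.MP_633d19_co.SmallDegree.MGraph
open Pool.Agent.W998.KG

theorem main : PartODD := by
  classical
  intro V E _ _ G k l y f α β hl hodd c hS δ hδ L hL
  -- partner of a non-leaving index
  have hpart : ∀ i, i ∈ (Finset.range l) \ L → ∃ j, j ∈ (Finset.range l) \ L ∧ j ≠ i ∧
      G.nb c δ (y i) = y j := by
    intro i hi
    rw [Finset.mem_sdiff, Finset.mem_range] at hi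
    obtain ⟨hil, hiL⟩ := hi
    obtain ⟨e, he1, he2⟩ := G.exists_of_not_miss hS.pp (hδ i hil)
    have hnl : ¬ Lv G l y c δ i := fun h => hiL ((hL i).mpr ⟨hil, h⟩)
    have hex : ∃ j < l, y j ∈ G.ends e ∧ j ≠ i := by
      by_contra hcon
      push Not at hcon
      exact hnl ⟨e, by rw [he2]; simp, he1, fun j hj hje => hcon j hj hje⟩
    obtain ⟨j, hjl, hje, hji⟩ := hex
    have hyj : y j = G.nb c δ (y i) := by
      rw [he2, Sym2.mem_iff] at hje
      rcases hje with h | h
      · exact absurd (hS.inj j hjl i hil h) hji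
      · exact h
    refine ⟨j, ?_, hji, hyj.symm⟩
    rw [Finset.mem_sdiff, Finset.mem_range]
    refine ⟨hjl, fun hjL => ?_⟩
    obtain ⟨_, e', he'1, he'2, he'3⟩ := (hL j).mp hjL
    have hee : e = e' := hS.pp e e' (y j) δ hje he'1 he1 he'2
    subst hee
    exact hji (he'3 i hil (by rw [he2]; simp)).symm
  choose! g hg1 hg2 hg3 using hpart
  have hinv : ∀ i, i ∈ (Finset.range l) \ L → g (g i) = i := by
    intro i hi
    have h1 := hg3 i hi
    have h2 := hg3 (g i) (hg1 i hi)
    rw [← h1, G.nb_invol hS.pp δ (y i)] at h2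
    have hi' := hi
    have hgg := hg1 (g i) (hg1 i hi)
    rw [Finset.mem_sdiff, Finset.mem_range] at hi' hgg
    exact (hS.inj i hi'.1 (g (g i)) hgg.1 h2).symm
  have hsum : ∑ _x ∈ (Finset.range l) \ L, (1 : ZMod 2) = 0 := by
    refine Finset.sum_involution (fun a _ => g a) ?_ ?_ ?_ ?_
    · intro a ha
      decide
    · intro a ha _
      exact hg2 a ha
    · intro a ha
      exact hg1 a ha
    · intro a ha
      exact hinv a ha
  rw [Finset.sum_const, nsmul_eq_mul, mul_one, ZMod.natCast_eq_zero_iff] at hsum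
  have hsub : L ⊆ Finset.range l := by
    intro i hi
    exact Finset.mem_range.mpr ((hL i).mp hi).1
  have hc1 := Finset.card_sdiff_add_card_eq_card hsub
  rw [Finset.card_range] at hc1
  omega

end Pool.Agent.W460.KG.ODD
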